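import Pool.Agent.X252.KMQ

/-!
Rational injectivity of assembly maps in algebraic K-theory for the groups `F / [S, S]`, with
coefficients in an arbitrary ring.

`kq R` is the functor `G ↦ ℚ ⊗ K₁(R[G])`, for an arbitrary ring `R` (for `R = R'[ℤ^m]` the group
`K₁(R[G])` contains `K₁₋ᵢ(R'[G])`, `0 ≤ i ≤ m`). `α_b : H_{d(b)}(G; ℚ) → ℚ ⊗ K₁(R[G])`, `b ∈ B`, is
any family of transformations natural in the group `G`, and `kerFam α G` is the kernel of their sum.

If the sum is injective on `ℤ^n` for all `n`, then it is injective on `F / [S, S]` for every free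
group `F` and every normal subgroup `S` of `F`. If the degrees `d(b)` are distinct, it is enough
that `α_b` is not zero on `ℤ^{d(b)}` for each `b`.
-/

namespace Pool.Agent.Results.MP_6374fb_al.MagnusQuotients

open CategoryTheory Pool.Agent.Y483 Pool.Agent.Y75.MQ Pool.Agent.X252.KMQ

theorem result (R : Type) [Ring R] {B : Type} {d : B → ℕ} (α : ∀ b : B, hq (d b) ⟶ kq R) :
    ((∀ n, kerFam α (zn n) = ⊥) ↔
      ∀ (X : Type) (S : Subgroup (FreeGroup X)) [S.Normal], kerFam α (modComm S) = ⊥) ∧
    (Function.Injective d →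
      ((∀ b, (α b).app (zn (d b)) ≠ 0) ↔
        ∀ (X : Type) (S : Subgroup (FreeGroup X)) [S.Normal], kerFam α (modComm S) = ⊥)) :=
  ⟨fam_iff (hasTransfers_kq R) α, fun hd => inj_iff (hasTransfers_kq R) α hd⟩

end Pool.Agent.Results.MP_6374fb_al.MagnusQuotients
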