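import Pool.Agent.X265.Ngo.Poly

/-!
# Groups of `2 × 2` matrices over polynomial rings and over algebras with a degree function

`C` is any class of groups with the closure properties `ClosedE C` which contains all groups with an
abelian normal subgroup and cyclic quotient. All of this is known for the class of the groups that
satisfy the K-theoretic Farrell–Jones conjecture with coefficients and finite wreath products.

Let `R` be an algebra, commutative or not, over the commutative ring `k`, with a multiplicative degree
function (written as a valuation `v`) such that the nonzero elements of `k` have degree `0`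
(`v = 1`) and all other elements of `R` positive degree (`v > 1`), and such that `k` is a direct summand of
the `k`-module `R`. Examples: polynomial rings and free associative algebras over a domain `k` in any
number of variables; over a field `k` moreover Weyl algebras (characteristic `0`), universal enveloping
algebras of Lie algebras, and all filtered algebras whose associated graded ring is a domain with `k` in
degree `0`.

Outline of the proof. The degrees of the two entries of columns show that the group `E` generated by
`GL_2(k)` and the upper unitriangular matrices over `R` is the amalgamated product of `GL_2(k)` and the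
upper triangular matrices over `R` over the upper triangular matrices over `k`, and the latter group is a
retract of the second factor. So the theorem on amalgamated products over retracts (`X176.FJ.Retr`)
applies.
-/

set_option autoImplicit false

namespace Pool.Agent.Results.MP_6374fb_al.PolynomialMatrices

open Pool.Agent.Y110.FJ Pool.Agent.X265.Ngo
open scoped Polynomial

/-- Let `C` be a class of groups with the closure properties `ClosedE C` which contains all
abelian-by-cyclic groups. Let `R` be an algebra over the commutative ring `k` with a valuation `v` which is
`1` on `k ∖ 0` and greater than `1` on the elements of `R` outside of `k`, and suppose that there is a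
`k`-linear projection of `R` onto `k`. Then the subgroup `EG k R` of `GL_2(R)` generated by `GL_2(k)` and the
matrices `!![1, r; 0, 1]`, `r ∈ R`, is in `C` if and only if `GL_2(k)` is in `C`. -/
theorem result (C : ∀ (G : Type) [Group G], Prop) (hC : ClosedE C)
    (hab : ∀ (H : Type) [Group H] (A : Subgroup H) [A.Normal], (∀ a ∈ A, ∀ b ∈ A, a * b = b * a) →
      IsCyclic (H ⧸ A) → C H)
    (k R : Type) [CommRing k] [Ring R] [Algebra k R]
    (Γ₀ : Type) [LinearOrderedCommGroupWithZero Γ₀] (v : Valuation R Γ₀)
    (hk : ∀ c : k, c ≠ 0 → v (algebraMap k R c) = 1)
    (hR : ∀ r : R, (∀ c : k, algebraMap k R c ≠ r) → 1 < v r)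
    (p : R →ₗ[k] k) (hp : ∀ c : k, p (algebraMap k R c) = c) :
    C ↥(EG k R) ↔ C (Matrix (Fin 2) (Fin 2) k)ˣ :=
  c_EG hC hab v hk hR p hp

/-- Special case: for every field `k`, `GL_2(k[X])` is in `C` if and only if `GL_2(k)` is. -/
theorem polynomial (C : ∀ (G : Type) [Group G], Prop) (hC : ClosedE C)
    (hab : ∀ (H : Type) [Group H] (A : Subgroup H) [A.Normal], (∀ a ∈ A, ∀ b ∈ A, a * b = b * a) →
      IsCyclic (H ⧸ A) → C H) (k : Type) [Field k] :
    C (Matrix (Fin 2) (Fin 2) k[X])ˣ ↔ C (Matrix (Fin 2) (Fin 2) k)ˣ :=
  c_GL2_poly hC hab k

end Pool.Agent.Results.MP_6374fb_al.PolynomialMatrices
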