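import Pool.Agent.X176.FJ.Rgp

/-!
# Relative graph products

`C` is any class of groups with the closure properties `ClosedE C`, all of which are known for the
class of the groups that satisfy the K-theoretic Farrell–Jones conjecture with coefficients in additive
categories and finite wreath products.

Let `Λ` be a graph with vertex set `V` (of any cardinality), and for each vertex `v` let `P v` be a group
with a subgroup `K v`. The relative graph product `RG Λ P K` is the quotient of the free product of the
groups `P v` by the relations which say that the subgroups `K v` and `K w` commute whenever `v` and `w`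
are adjacent. For `K v = P v` these are the graph products; for two adjacent vertices it is the free
product of two groups with commuting subgroups.

The relative graph product is in `C` if and only if all groups `P v` are. Moreover, if a group `Γ` acts
on the relative graph product by permuting the groups `P v`, preserving the relations, such that each
element which fixes a vertex `v` has a positive power which acts trivially on `P v`, then the semidirect
product with `Γ` is in `C` if and only if `Γ` and all `P v` are.
-/

set_option autoImplicit false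

namespace Pool.Agent.Results.MP_6374fb_al.RelativeGraphProducts

open Pool.Agent.Y110.FJ Pool.Agent.X176.FJ Monoid

section defs

variable {V : Type} (P : V → Type) [∀ v, Group (P v)]

/-- the automorphisms of the free product of the groups `P v` -/
abbrev AutFP : Type := MulAut (CoprodI P)

variable {P}

/-- the image of the element `x` of the factor `P v` -/
def app (σ : AutFP P) {v : V} (x : P v) : CoprodI P := σ (CoprodI.of x)

variable (Γ : Type) [Group Γ]

/-- the group `Γ` permutes the factors like the vertices -/
def PermFac [MulAction Γ V] (ρ : Γ →* AutFP P) : Prop :=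
  ∀ (q : Γ) (v : V) (x : P v), ∃ y : P (q • v), app (ρ q) x = CoprodI.of y

/-- the set of relations is preserved -/
def PresRel (R : Set (CoprodI P)) (ρ : Γ →* AutFP P) : Prop := ∀ q : Γ, ∀ r ∈ R, ρ q r ∈ R

/-- an element which fixes the vertex `v` has a positive power which acts trivially on `P v` -/
def Untw [MulAction Γ V] (ρ : Γ →* AutFP P) : Prop :=
  ∀ (q : Γ) (v : V), q • v = v → ∃ k : ℕ, 0 < k ∧ ∀ x : P v, app (ρ (q ^ k)) x = CoprodI.of x

variable (Λ : SimpleGraph V) (K : ∀ v, Subgroup (P v))

/-- the automorphisms of the relative graph product -/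
abbrev AutRG : Type := MulAut (RG Λ P K)

/-- `φ` is induced by the action `ρ` on the free product -/
def Induced (ρ : Γ →* AutFP P) (φ : Γ →* AutRG Λ K) : Prop :=
  ∀ (q : Γ) (x : CoprodI P), φ q (QuotientGroup.mk x) = QuotientGroup.mk (ρ q x)

/-- the semidirect product of the relative graph product and `Γ` -/
abbrev SD (φ : Γ →* AutRG Λ K) : Type := RG Λ P K ⋊[φ] Γ

end defs

/-- **Relative graph products.** -/
theorem result (C : ∀ (G : Type) [Group G], Prop) (hC : ClosedE C) (V : Type) (Λ : SimpleGraph V)
    (P : V → Type) [∀ v, Group (P v)] (K : ∀ v, Subgroup (P v)) :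
    (C (RG Λ P K) ↔ ∀ v, C (P v)) ∧
    ∀ (Γ : Type) [Group Γ] [MulAction Γ V] (ρ : Γ →* AutFP P) (φ : Γ →* AutRG Λ K),
      PresRel Γ (rgR Λ P K) ρ → PermFac Γ ρ → Untw Γ ρ → Induced Γ Λ K ρ φ →
      (C (SD Γ Λ K φ) ↔ C Γ ∧ ∀ v, C (P v)) := by
  have hinj : ∀ v, Function.Injective (Pool.Agent.Y110.KW.fac (rgR Λ P K) v) := by
    classical
    intro v x y hxy
    let u : ∀ w, P w →* P v := fun w => if h : w = v then castH P h else 1
    have hu : ∀ x : P v, u v x = x := by
      intro x
      simp only [u, dif_pos]
      rfl
    have hu' : ∀ w, w ≠ v → ∀ x : P w, u w x = 1 := by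
      intro w hw x
      simp only [u, dif_neg hw]
      rfl
    let f : RG Λ P K →* P v := rgLift Λ P K u (by
      intro a b hab k hk l hl
      by_cases ha : a = v
      · have hb : b ≠ v := by rintro rfl; exact hab.ne ha
        rw [hu' b hb]; exact Commute.one_right _
      · rw [hu' a ha]; exact Commute.one_left _)
    have h1 := congrArg f hxy
    rw [show f _ = u v x from rgLift_fac _ _ _ _ _ _ _,
      show f _ = u v y from rgLift_fac _ _ _ _ _ _ _, hu, hu] at h1
    exact h1
  have h1 : C (RG Λ P K) ↔ ∀ v, C (P v) :=
    ⟨fun h v => hC.base.of_injective _ _ _ (hinj v) h, fun h => c_rg Λ P K hC h⟩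
  refine ⟨h1, ?_⟩
  intro Γ _ _ ρ φ h hP hU hφ
  have hφ' : φ = Pool.Agent.Y483.PW.qAct (R := rgR Λ P K) (ρ := ρ) h := by
    ext q x
    obtain ⟨y, rfl⟩ := QuotientGroup.mk_surjective x
    exact hφ q y
  subst hφ'
  constructor
  · intro hG
    refine ⟨hC.base.of_injective _ _ (SemidirectProduct.inr : Γ →*
      RG Λ P K ⋊[Pool.Agent.Y483.PW.qAct (R := rgR Λ P K) (ρ := ρ) h] Γ)
      SemidirectProduct.inr_injective hG, h1.1 ?_⟩
    exact hC.base.of_injective _ _ (SemidirectProduct.inl : RG Λ P K →*
      RG Λ P K ⋊[Pool.Agent.Y483.PW.qAct (R := rgR Λ P K) (ρ := ρ) h] Γ)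
      SemidirectProduct.inl_injective hG
  · rintro ⟨hΓ, hv⟩
    exact loc_semi hC (rg_local Λ P K) hP h hU (fun S _ _ =>
      hC.base.of_injective _ _ _ (Subgroup.subtype_injective _) (h1.2 hv)) hΓ

end Pool.Agent.Results.MP_6374fb_al.RelativeGraphProducts
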