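import Pool.Agent.TH6.PF.KMod

/-!
# Finitely presented modules over group rings have thin presentations, up to the constant `3 / √2`

For every ring `R`, every group `G` and every `c > 3 / √2`, every finitely presented `RG`-module is
the cokernel of a matrix whose support pattern has operator norm at most `c`.
-/

set_option autoImplicit false

namespace Pool.Agent.Results.MP_6374fb_al.ThinPresentations

open TH57.Thr TH6.PF

/-- Let `R` be a ring, `G` a group and `c > 3 / √2`. Every finitely presented `RG`-module `P` is
isomorphic to the cokernel of a matrix over `RG` whose support pattern (the matrix of zeros and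
ones over `ℤG` with the same support) has `ℓ²`-operator norm at most `c`. -/
theorem result (R : Type) [Ring R] (G : Type) [Group G] (c : ℝ) (hc : 9 / 2 < c ^ 2)
    (P : Type) [AddCommGroup P] [Module (MonoidAlgebra R G) P]
    (hP : Module.FinitePresentation (MonoidAlgebra R G) P) :
    ∃ (m n : ℕ) (A : Matrix (Fin m) (Fin n) (MonoidAlgebra R G)), ThinLE A c ∧
      Nonempty (P ≃ₗ[MonoidAlgebra R G]
        ((Fin n → MonoidAlgebra R G) ⧸ LinearMap.range A.vecMulLinear)) :=
  thin_pres P hP c hc

end Pool.Agent.Results.MP_6374fb_al.ThinPresentations
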